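import Mathlib

/-!
# The upper Houdré-Tetali inequality fails for simple random walks on graphs

For every `K` we consider the Cayley graph `gr K` of the abelian group
`ZMod (2^(K+1)) × ZMod (4^(K+1))` whose connection set consists of the nonzero elements
`±(u_j, c)`, `0 ≤ j ≤ K+1`, `c < 4^j`, where `u_j = 2^(K-j)` for `j ≤ K` and `u_(K+1) = 0`.
So every cluster `{i} × ZMod (4^(K+1))` is a clique, and the clusters `i` and `i + 2^k` are
joined by a biregular bipartite graph of degree `4^(K-k)`.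

* `lambda2 (gr K) ≤ 4 (K+1) / 4^K` (the cosine on the first coordinate is an eigenvector);
* `phi (1/2) (gr K) ≥ (K+1) / (96 * 2^K)`: this uses that the averaged boundary function
  `E S` is subadditive, that its sum over all shifts is large, and Chebyshev's sum inequality.
-/

open Finset

namespace Pool.Agent.Results.MP_6dcedf_co.SimpleWalkCounterexample

section Defs
variable {V : Type} [Fintype V] [DecidableEq V]

/-- Transition matrix of the simple random walk on `G`: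
`P(v,u) = 1 / deg v` if `uv` is an edge and `0` otherwise. -/
noncomputable def srw (G : SimpleGraph V) [DecidableRel G.Adj] : Matrix V V ℝ :=
  fun v u => if G.Adj v u then (1 : ℝ) / (G.degree v : ℝ) else 0

/-- Stationary distribution of the simple random walk: `π(v) = deg v / (2 |E|)`. -/
noncomputable def stat (G : SimpleGraph V) [DecidableRel G.Adj] (v : V) : ℝ :=
  (G.degree v : ℝ) / (2 * (G.edgeFinset.card : ℝ))

/-- The quotient `∑_{v ∈ S} π(v) (∑_{u ∉ S} P(v,u))^p / π(S)`. -/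
noncomputable def quot (p : ℝ) (G : SimpleGraph V) [DecidableRel G.Adj] (S : Finset V) : ℝ :=
  (∑ v ∈ S, stat G v * (∑ u ∈ Sᶜ, srw G v u) ^ p) / ∑ v ∈ S, stat G v

/-- `φ_p(G)`: the minimum (infimum over a finite set) of the quotient over all nonempty
vertex sets `S` with `π(S) ≤ 1/2`. -/
noncomputable def phi (p : ℝ) (G : SimpleGraph V) [DecidableRel G.Adj] : ℝ :=
  sInf {r | ∃ S : Finset V, S.Nonempty ∧ ∑ v ∈ S, stat G v ≤ 1 / 2 ∧ r = quot p G S}

/-- `λ₂(I - P)`: the second entry of the increasingly sorted list of the roots, with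
multiplicity, of the characteristic polynomial of `I - P`. -/
noncomputable def lambda2 (G : SimpleGraph V) [DecidableRel G.Adj] : ℝ :=
  ((1 - srw G).charpoly.roots.sort (· ≤ ·)).getD 1 0

end Defs

/-! ### second smallest root -/

theorem getD_one_le (s : Multiset ℝ) (a b : ℝ) (hab : a < b) (ha : a ∈ s) (hb : b ∈ s) :
    (s.sort (· ≤ ·)).getD 1 0 ≤ b := by
  set l := s.sort (· ≤ ·) with hl
  have hs : l.Pairwise (· ≤ ·) := Multiset.pairwise_sort s _
  have ha' : a ∈ l := by rw [hl, Multiset.mem_sort]; exact ha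
  have hb' : b ∈ l := by rw [hl, Multiset.mem_sort]; exact hb
  clear_value l
  match l, hs, ha', hb' with
  | [], _, h, _ => simp at h
  | [x], _, h, h' =>
    simp only [List.mem_singleton] at h h'
    rw [h, h'] at hab
    exact absurd hab (lt_irrefl _)
  | x :: y :: t, hs, h, h' =>
    simp only [List.getD_cons_succ, List.getD_cons_zero]
    rw [List.pairwise_cons, List.pairwise_cons] at hs
    rcases List.mem_cons.1 h' with h1 | h1
    · -- b = x, so everything is ≥ b, contradiction with a < b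
      rcases List.mem_cons.1 h with h2 | h2
      · rw [h1, h2] at hab; exact absurd hab (lt_irrefl _)
      · have := hs.1 a h2
        rw [← h1] at this
        exact absurd (lt_of_lt_of_le hab this) (lt_irrefl _)
    · rcases List.mem_cons.1 h1 with h2 | h2
      · exact h2.ge
      · exact hs.2.1 b h2

theorem root_of_mulVec {V : Type} [Fintype V] [DecidableEq V] (M : Matrix V V ℝ) (f : V → ℝ)
    (hf : f ≠ 0) (μ : ℝ) (h : M.mulVec f = μ • f) : μ ∈ M.charpoly.roots := by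
  rw [Polynomial.mem_roots (Matrix.charpoly_monic M).ne_zero, Polynomial.IsRoot,
    Matrix.eval_charpoly]
  rw [← Matrix.exists_mulVec_eq_zero_iff]
  refine ⟨f, hf, ?_⟩
  rw [Matrix.sub_mulVec, h]
  funext v
  simp [Matrix.scalar_apply]

/-! ### Cayley graphs of finite abelian groups -/

section Cay
variable {Γ : Type} [AddCommGroup Γ] [Fintype Γ] [DecidableEq Γ]

/-- number of `v ∈ S` with `v + g ∉ S` -/
def bd (S : Finset Γ) (g : Γ) : ℕ := (S.filter (fun v => v + g ∉ S)).card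

theorem bd_zero (S : Finset Γ) : bd S 0 = 0 := by
  unfold bd
  rw [Finset.card_eq_zero, Finset.filter_eq_empty_iff]
  intro v hv
  simpa using hv

theorem bd_add (S : Finset Γ) (g h : Γ) : bd S (g + h) ≤ bd S g + bd S h := by
  have h1 : S.filter (fun v => v + (g + h) ∉ S) ⊆
      S.filter (fun v => v + g ∉ S) ∪ (S.filter (fun v => v + h ∉ S)).image (fun w => w - g) := by
    intro v hv
    rw [mem_filter] at hv
    by_cases hvg : v + g ∈ S
    · apply mem_union_right
      rw [mem_image]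
      refine ⟨v + g, ?_, by abel⟩
      rw [mem_filter]
      exact ⟨hvg, by rw [add_assoc]; exact hv.2⟩
    · apply mem_union_left
      rw [mem_filter]
      exact ⟨hv.1, hvg⟩
  calc bd S (g + h) ≤ _ := card_le_card h1
    _ ≤ _ := card_union_le _ _
    _ ≤ _ := Nat.add_le_add_left card_image_le _

theorem bd_sum (S : Finset Γ) : ∑ g, bd S g = S.card * (Fintype.card Γ - S.card) := by
  have h1 : ∀ g, bd S g = ∑ v ∈ S, if v + g ∉ S then 1 else 0 := by
    intro g
    rw [bd, Finset.card_filter]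
  simp_rw [h1]
  rw [Finset.sum_comm]
  have h2 : ∀ v ∈ S, (∑ g, if v + g ∉ S then 1 else 0) = Fintype.card Γ - S.card := by
    intro v _
    have h3 : (∑ g, if v + g ∉ S then 1 else 0) = ∑ w, if w ∉ S then (1 : ℕ) else 0 :=
      Equiv.sum_comp (Equiv.addLeft v) (fun w => if w ∉ S then (1 : ℕ) else 0)
    rw [h3, ← Finset.card_filter, ← Finset.card_compl]
    congr 1
    ext x
    simp
  rw [Finset.sum_congr rfl h2]
  simp

variable (C : Finset Γ) (h0 : (0 : Γ) ∉ C) (hs : ∀ g ∈ C, -g ∈ C)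

/-- Cayley graph -/
def cay (h0 : (0 : Γ) ∉ C) (hs : ∀ g ∈ C, -g ∈ C) : SimpleGraph Γ where
  Adj u v := v - u ∈ C
  symm := ⟨fun u v h => by
    have := hs _ h
    rwa [neg_sub] at this⟩
  loopless := ⟨fun u h => h0 (by rwa [sub_self] at h)⟩

instance : DecidableRel (cay C h0 hs).Adj := fun u v => inferInstanceAs (Decidable (v - u ∈ C))

theorem cay_adj (u v : Γ) : (cay C h0 hs).Adj u v ↔ v - u ∈ C := Iff.rfl

theorem cay_sum (v : Γ) (F : Γ → ℝ) :
    ∑ u, (if (cay C h0 hs).Adj v u then F u else 0) = ∑ c ∈ C, F (v + c) := by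
  rw [← Equiv.sum_comp (Equiv.addLeft v)]
  simp only [Equiv.coe_addLeft, cay_adj, add_sub_cancel_left]
  rw [Finset.sum_ite_mem, Finset.univ_inter]

theorem cay_degree (v : Γ) : (cay C h0 hs).degree v = C.card := by
  have h := cay_sum C h0 hs v (fun _ => 1)
  simp only [Finset.sum_const, nsmul_eq_mul, mul_one] at h
  rw [← Finset.sum_filter] at h
  simp only [Finset.sum_const, nsmul_eq_mul, mul_one] at h
  have h2 : (cay C h0 hs).degree v = (Finset.univ.filter (fun u => (cay C h0 hs).Adj v u)).card := by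
    rw [← SimpleGraph.card_neighborFinset_eq_degree]
    congr 1
    ext u
    simp
  rw [h2]
  exact_mod_cast h

theorem cay_stat (hC : C.Nonempty) (v : Γ) :
    stat (cay C h0 hs) v = 1 / (Fintype.card Γ : ℝ) := by
  have hsum := SimpleGraph.sum_degrees_eq_twice_card_edges (cay C h0 hs)
  simp only [cay_degree, Finset.sum_const, Finset.card_univ, smul_eq_mul] at hsum
  have hsum' : (2 : ℝ) * ((cay C h0 hs).edgeFinset.card : ℝ) = (Fintype.card Γ : ℝ) * (C.card : ℝ) := by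
    exact_mod_cast hsum.symm
  unfold stat
  rw [hsum', cay_degree]
  have hc : (C.card : ℝ) ≠ 0 := by
    exact_mod_cast hC.card_pos.ne'
  have hΓ : (Fintype.card Γ : ℝ) ≠ 0 := by
    have : Nonempty Γ := ⟨0⟩
    exact_mod_cast Fintype.card_pos.ne'
  field_simp

theorem cay_out (S : Finset Γ) (v : Γ) :
    ∑ u ∈ Sᶜ, srw (cay C h0 hs) v u = ((C.filter (fun c => v + c ∉ S)).card : ℝ) / (C.card : ℝ) := by
  have h1 : ∑ u ∈ Sᶜ, srw (cay C h0 hs) v u =
      ∑ u, (if (cay C h0 hs).Adj v u then (if u ∉ S then 1 / (C.card : ℝ) else 0) else 0) := by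
    rw [← Finset.sum_filter_add_sum_filter_not univ (fun u => u ∈ S)]
    rw [Finset.sum_eq_zero (s := univ.filter (fun u => u ∈ S)), zero_add]
    · have : univ.filter (fun u => u ∉ S) = Sᶜ := by ext; simp
      rw [this]
      refine Finset.sum_congr rfl fun u hu => ?_
      rw [mem_compl] at hu
      unfold srw
      rw [cay_degree, if_pos hu]
    · intro u hu
      rw [mem_filter] at hu
      simp [hu.2]
  rw [h1, cay_sum C h0 hs v (fun u => if u ∉ S then 1 / (C.card : ℝ) else 0), ← Finset.sum_filter,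
    Finset.sum_const, nsmul_eq_mul]
  ring

/-- lower bound for phi. -/
theorem cay_phi_ge (hC : C.Nonempty) (h2 : 2 ≤ Fintype.card Γ) (B : ℝ)
    (hB : ∀ S : Finset Γ, S.Nonempty → 2 * S.card ≤ Fintype.card Γ →
      B * S.card ≤ ∑ v ∈ S, Real.sqrt ((C.filter (fun c => v + c ∉ S)).card : ℝ)) :
    B / Real.sqrt C.card ≤ phi (1 / 2) (cay C h0 hs) := by
  have hΓ : (0 : ℝ) < (Fintype.card Γ : ℝ) := by
    exact_mod_cast (by omega : 0 < Fintype.card Γ)
  have hstatsum : ∀ S : Finset Γ, ∑ v ∈ S, stat (cay C h0 hs) v = S.card / (Fintype.card Γ : ℝ) := by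
    intro S
    simp only [cay_stat C h0 hs hC, Finset.sum_const, nsmul_eq_mul]
    ring
  unfold phi
  apply le_csInf
  · refine ⟨_, {0}, Finset.singleton_nonempty _, ?_, rfl⟩
    rw [hstatsum, Finset.card_singleton, Nat.cast_one]
    have : (2 : ℝ) ≤ (Fintype.card Γ : ℝ) := by exact_mod_cast h2
    exact one_div_le_one_div_of_le (by norm_num) this
  · rintro r ⟨S, hS, hS2, rfl⟩
    rw [hstatsum] at hS2
    have hcard : 2 * S.card ≤ Fintype.card Γ := by
      rw [div_le_iff₀ hΓ] at hS2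
      have : (2 : ℝ) * S.card ≤ Fintype.card Γ := by linarith
      exact_mod_cast this
    have hSpos : (0 : ℝ) < S.card := by exact_mod_cast hS.card_pos
    have hCpos : (0 : ℝ) < C.card := by exact_mod_cast hC.card_pos
    have hmain := hB S hS hcard
    unfold quot
    rw [hstatsum]
    have h3 : ∀ v ∈ S, stat (cay C h0 hs) v * (∑ u ∈ Sᶜ, srw (cay C h0 hs) v u) ^ (1 / 2 : ℝ) =
        (1 / (Fintype.card Γ : ℝ)) * (1 / Real.sqrt C.card) *
          Real.sqrt ((C.filter (fun c => v + c ∉ S)).card : ℝ) := by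
      intro v _
      rw [cay_stat C h0 hs hC, cay_out, ← Real.sqrt_eq_rpow, Real.sqrt_div (by positivity)]
      ring
    rw [Finset.sum_congr rfl h3, ← Finset.mul_sum]
    have hsq : (0 : ℝ) < Real.sqrt C.card := Real.sqrt_pos.2 hCpos
    rw [le_div_iff₀ (by positivity)]
    calc B / Real.sqrt C.card * (S.card / Fintype.card Γ)
        = (1 / (Fintype.card Γ : ℝ)) * (1 / Real.sqrt C.card) * (B * S.card) := by ring
      _ ≤ _ := by
        apply mul_le_mul_of_nonneg_left hmain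
        positivity

/-- eigenvectors -/
theorem cay_lambda2_le (hC : C.Nonempty) (f : Γ → ℝ) (hf : f ≠ 0) (τ : ℝ)
    (hτ : ∀ v, ∑ c ∈ C, f (v + c) = τ * f v) (hlt : τ < C.card) :
    lambda2 (cay C h0 hs) ≤ 1 - τ / C.card := by
  have hCpos : (0 : ℝ) < C.card := by exact_mod_cast hC.card_pos
  have key : ∀ (g : Γ → ℝ) (t : ℝ), (∀ v, ∑ c ∈ C, g (v + c) = t * g v) →
      (1 - srw (cay C h0 hs)).mulVec g = (1 - t / C.card) • g := by
    intro g t ht
    rw [Matrix.sub_mulVec, Matrix.one_mulVec]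
    funext v
    simp only [Pi.sub_apply, Pi.smul_apply, smul_eq_mul]
    have : (srw (cay C h0 hs)).mulVec g v = t / C.card * g v := by
      simp only [Matrix.mulVec, dotProduct, srw, cay_degree]
      have h1 : ∀ u, (if (cay C h0 hs).Adj v u then 1 / (C.card : ℝ) else 0) * g u =
          if (cay C h0 hs).Adj v u then (1 / (C.card : ℝ)) * g u else 0 := by
        intro u
        split_ifs <;> simp
      simp_rw [h1]
      rw [cay_sum C h0 hs v (fun u => 1 / (C.card : ℝ) * g u), ← Finset.mul_sum, ht v]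
      ring
    rw [this]
    ring
  have hone : (fun _ : Γ => (1 : ℝ)) ≠ 0 := by
    intro h
    have := congrFun h 0
    simp at this
  have r0 := root_of_mulVec (1 - srw (cay C h0 hs)) (fun _ => 1) hone (1 - (C.card : ℝ) / C.card)
    (key (fun _ => 1) C.card (fun v => by simp))
  have r1 := root_of_mulVec (1 - srw (cay C h0 hs)) f hf (1 - τ / C.card) (key f τ hτ)
  unfold lambda2
  refine getD_one_le _ _ _ ?_ r0 r1
  rw [div_self hCpos.ne']
  have : τ / C.card < 1 := (div_lt_one hCpos).2 hlt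
  linarith

end Cay


section Pos

theorem getD_one_pos (s : Multiset ℝ) (h2 : 2 ≤ s.card) (hc : (s.filter (· ≤ 0)).card ≤ 1) :
    0 < (s.sort (· ≤ ·)).getD 1 0 := by
  set l := s.sort (· ≤ ·) with hl
  have hs : l.Pairwise (· ≤ ·) := Multiset.pairwise_sort s _
  have hlen : l.length = s.card := by rw [hl, Multiset.length_sort]
  have hsl : (l : Multiset ℝ) = s := by rw [hl, Multiset.sort_eq]
  rw [← hsl] at hc
  clear_value l
  match l, hs, hlen, hc with
  | [], _, h, _ => simp at h; omega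
  | [x], _, h, _ => simp at h; omega
  | x :: y :: t, hs, _, hc =>
    simp only [List.getD_cons_succ, List.getD_cons_zero]
    by_contra hcon
    push Not at hcon
    rw [List.pairwise_cons, List.pairwise_cons] at hs
    have hx : x ≤ 0 := (hs.1 y (by simp)).trans hcon
    have e : (Multiset.filter (fun z : ℝ => z ≤ 0) ((x :: y :: t : List ℝ) : Multiset ℝ)).card =
        (List.filter (fun z : ℝ => decide (z ≤ 0)) (x :: y :: t)).length := by
      rw [Multiset.filter_coe, Multiset.coe_card]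
    rw [e, List.filter_cons_of_pos (by simpa using hx), List.filter_cons_of_pos (by simpa using hcon)] at hc
    simp at hc

variable {Γ : Type} [AddCommGroup Γ] [Fintype Γ] [DecidableEq Γ]
variable (C : Finset Γ) (h0 : (0 : Γ) ∉ C) (hs : ∀ g ∈ C, -g ∈ C)

theorem cay_mulVec (g : Γ → ℝ) (v : Γ) :
    (1 - srw (cay C h0 hs)).mulVec g v = g v - (∑ c ∈ C, g (v + c)) / C.card := by
  rw [Matrix.sub_mulVec, Matrix.one_mulVec]
  simp only [Pi.sub_apply]
  congr 1
  simp only [Matrix.mulVec, dotProduct, srw, cay_degree]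
  have h1 : ∀ u, (if (cay C h0 hs).Adj v u then 1 / (C.card : ℝ) else 0) * g u =
      if (cay C h0 hs).Adj v u then (1 / (C.card : ℝ)) * g u else 0 := by
    intro u
    split_ifs <;> simp
  simp_rw [h1]
  rw [cay_sum C h0 hs v (fun u => 1 / (C.card : ℝ) * g u), ← Finset.mul_sum]
  ring

theorem cay_herm : (1 - srw (cay C h0 hs)).IsHermitian := by
  ext u v
  simp only [Matrix.conjTranspose_apply, Matrix.sub_apply, srw, cay_degree, star_trivial]
  have h1 : (cay C h0 hs).Adj v u ↔ (cay C h0 hs).Adj u v := (cay C h0 hs).adj_comm v u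
  have h2 : (1 : Matrix Γ Γ ℝ) v u = (1 : Matrix Γ Γ ℝ) u v := by
    simp only [Matrix.one_apply, eq_comm]
  rw [h2]
  simp only [h1]

theorem cay_form (hC : C.Nonempty) (x : Γ → ℝ) :
    ∑ v, x v * (1 - srw (cay C h0 hs)).mulVec x v =
      (∑ v, ∑ c ∈ C, (x v - x (v + c)) ^ 2) / (2 * C.card) := by
  have hCpos : (0 : ℝ) < C.card := by exact_mod_cast hC.card_pos
  have e1 : ∀ v, ∑ c ∈ C, (x v - x (v + c)) ^ 2 =
      C.card * (x v) ^ 2 - 2 * (x v * ∑ c ∈ C, x (v + c)) + ∑ c ∈ C, (x (v + c)) ^ 2 := by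
    intro v
    have : ∀ c, (x v - x (v + c)) ^ 2 = (x v) ^ 2 - 2 * (x v * x (v + c)) + (x (v + c)) ^ 2 := by
      intro c; ring
    simp_rw [this]
    rw [Finset.sum_add_distrib, Finset.sum_sub_distrib, Finset.sum_const, nsmul_eq_mul,
      ← Finset.mul_sum, ← Finset.mul_sum]
  have e2 : ∑ v, ∑ c ∈ C, (x (v + c)) ^ 2 = C.card * ∑ v, (x v) ^ 2 := by
    rw [Finset.sum_comm]
    have : ∀ c ∈ C, ∑ v, (x (v + c)) ^ 2 = ∑ v, (x v) ^ 2 := by
      intro c _
      exact Equiv.sum_comp (Equiv.addRight c) (fun w => (x w) ^ 2)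
    rw [Finset.sum_congr rfl this, Finset.sum_const, nsmul_eq_mul]
  simp_rw [e1]
  rw [Finset.sum_add_distrib, e2, Finset.sum_sub_distrib, ← Finset.mul_sum, ← Finset.mul_sum]
  simp_rw [cay_mulVec]
  have e3 : ∀ v, x v * (x v - (∑ c ∈ C, x (v + c)) / C.card) =
      (x v) ^ 2 - (x v * ∑ c ∈ C, x (v + c)) / C.card := by
    intro v; ring
  simp_rw [e3]
  rw [Finset.sum_sub_distrib, ← Finset.sum_div]
  field_simp
  ring

theorem cay_const (hC : C.Nonempty) (hconn : (cay C h0 hs).Connected) (x : Γ → ℝ) (μ : ℝ)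
    (hμ : μ ≤ 0) (hx : (1 - srw (cay C h0 hs)).mulVec x = μ • x) : ∀ u v, x u = x v := by
  have hCpos : (0 : ℝ) < C.card := by exact_mod_cast hC.card_pos
  have h1 := cay_form C h0 hs hC x
  rw [hx] at h1
  simp only [Pi.smul_apply, smul_eq_mul] at h1
  have h2 : ∑ v, x v * (μ * x v) ≤ 0 := by
    apply Finset.sum_nonpos
    intro v _
    nlinarith [sq_nonneg (x v)]
  have h3 : ∑ v, ∑ c ∈ C, (x v - x (v + c)) ^ 2 ≤ 0 := by
    rw [h1] at h2
    by_contra hcon
    push Not at hcon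
    have : 0 < (∑ v, ∑ c ∈ C, (x v - x (v + c)) ^ 2) / (2 * C.card) := by positivity
    linarith
  have h4 : ∑ v, ∑ c ∈ C, (x v - x (v + c)) ^ 2 = 0 :=
    le_antisymm h3 (Finset.sum_nonneg fun _ _ => Finset.sum_nonneg fun _ _ => sq_nonneg _)
  have h5 : ∀ v, ∀ c ∈ C, x v = x (v + c) := by
    intro v c hc
    have h6 := (Finset.sum_eq_zero_iff_of_nonneg
      (fun v _ => Finset.sum_nonneg fun _ _ => sq_nonneg _)).1 h4 v (mem_univ v)
    have h7 := (Finset.sum_eq_zero_iff_of_nonneg (fun _ _ => sq_nonneg _)).1 h6 c hc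
    have h8 : x v - x (v + c) = 0 := by
      exact pow_eq_zero_iff (two_ne_zero) |>.1 h7
    linarith
  intro u v
  obtain ⟨w⟩ := hconn.preconnected u v
  induction w with
  | nil => rfl
  | @cons a b c hab p ih =>
    rw [← ih]
    have := h5 a (b - a) hab
    rwa [add_sub_cancel] at this

theorem cay_lambda2_pos (hC : C.Nonempty) (h2 : 2 ≤ Fintype.card Γ)
    (hconn : (cay C h0 hs).Connected) : 0 < lambda2 (cay C h0 hs) := by
  have hA := cay_herm C h0 hs
  unfold lambda2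
  have hroots := hA.roots_charpoly_eq_eigenvalues
  apply getD_one_pos
  · rw [hroots, Multiset.card_map]
    exact h2
  · rw [hroots, Multiset.filter_map, Multiset.card_map]
    have e : Multiset.filter ((fun x : ℝ => x ≤ 0) ∘ (RCLike.ofReal ∘ hA.eigenvalues))
        (univ : Finset Γ).val = (univ.filter (fun i : Γ => hA.eigenvalues i ≤ 0)).val := by
      rw [Finset.filter_val]
      rfl
    rw [e]
    show (univ.filter (fun i : Γ => hA.eigenvalues i ≤ 0)).card ≤ 1
    rw [Finset.card_le_one]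
    intro i hi j hj
    rw [mem_filter] at hi hj
    by_contra hij
    have ci := cay_const C h0 hs hC hconn _ _ hi.2 (hA.mulVec_eigenvectorBasis i)
    have cj := cay_const C h0 hs hC hconn _ _ hj.2 (hA.mulVec_eigenvectorBasis j)
    have horth := hA.eigenvectorBasis.orthonormal
    have hi1 := horth.1 i
    have hj1 := horth.1 j
    have hij0 : inner ℝ (hA.eigenvectorBasis i) (hA.eigenvectorBasis j) = 0 := horth.2 hij
    have hΓ : (0 : ℝ) < (Fintype.card Γ : ℝ) := by
      exact_mod_cast (by omega : 0 < Fintype.card Γ)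
    set bi := hA.eigenvectorBasis i with hbi
    set bj := hA.eigenvectorBasis j with hbj
    have e1 : inner ℝ bi bj = (Fintype.card Γ : ℝ) * (bi 0 * bj 0) := by
      rw [PiLp.inner_apply]
      have : ∀ v, inner ℝ (bi v) (bj v) = bi 0 * bj 0 := by
        intro v
        rw [ci v 0, cj v 0]
        simp [mul_comm]
      simp_rw [this]
      rw [Finset.sum_const, nsmul_eq_mul, card_univ]
    rw [e1] at hij0
    rcases mul_eq_zero.1 hij0 with h | h
    · exact hΓ.ne' h
    · rcases mul_eq_zero.1 h with h | h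
      · have : bi = 0 := by
          ext v
          rw [ci v 0, h]; rfl
        rw [this, norm_zero] at hi1
        exact zero_ne_one hi1
      · have : bj = 0 := by
          ext v
          rw [cj v 0, h]; rfl
        rw [this, norm_zero] at hj1
        exact zero_ne_one hj1

end Pos

/-! ### The group and the connection set -/

section Main

variable (K : ℕ)

/-- The vertex group. -/
abbrev Gam (K : ℕ) : Type := ZMod (2 ^ (K + 1)) × ZMod (4 ^ (K + 1))

/-- the jump of level `j`: `2 ^ (K - j)` for `j ≤ K` and `0` for `j = K + 1`. -/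
def jump (K j : ℕ) : ZMod (2 ^ (K + 1)) := ((2 ^ (K + 1 - j) / 2 : ℕ) : ZMod (2 ^ (K + 1)))

def lev (K j : ℕ) : Finset (Gam K) :=
  univ.filter (fun g => g.1 = jump K j ∧ g.2.val < 4 ^ j)

def conn (K : ℕ) : Finset (Gam K) :=
  univ.filter (fun g => g ≠ 0 ∧ ∃ j ∈ range (K + 2), g ∈ lev K j ∨ -g ∈ lev K j)

theorem mem_lev {K j : ℕ} {g : Gam K} : g ∈ lev K j ↔ g.1 = jump K j ∧ g.2.val < 4 ^ j := by
  simp [lev]

theorem mem_conn {K : ℕ} {g : Gam K} :
    g ∈ conn K ↔ g ≠ 0 ∧ ∃ j ∈ range (K + 2), g ∈ lev K j ∨ -g ∈ lev K j := by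
  simp [conn]

theorem conn_zero (K : ℕ) : (0 : Gam K) ∉ conn K := by
  rw [mem_conn]; simp

theorem conn_neg (K : ℕ) : ∀ g ∈ conn K, -g ∈ conn K := by
  intro g hg
  rw [mem_conn] at hg ⊢
  obtain ⟨h1, j, hj, h2⟩ := hg
  refine ⟨neg_ne_zero.2 h1, j, hj, ?_⟩
  rw [neg_neg]
  exact h2.symm

theorem jump_val {K j : ℕ} (_hj : j < K + 2) : (jump K j).val = 2 ^ (K + 1 - j) / 2 := by
  unfold jump
  rw [ZMod.val_natCast_of_lt]
  have h1 : 2 ^ (K + 1 - j) ≤ 2 ^ (K + 1) := Nat.pow_le_pow_right (by norm_num) (by omega)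
  have h2 : 0 < 2 ^ (K + 1) := by positivity
  omega

theorem jump_inj {K i j : ℕ} (hi : i < K + 2) (hj : j < K + 2) (h : jump K i = jump K j) :
    i = j := by
  have h1 := congrArg ZMod.val h
  rw [jump_val hi, jump_val hj] at h1
  -- both are of the form 2^a / 2 with a ≤ K + 1
  by_contra hne
  wlog hlt : i < j with H
  · exact H hj hi h.symm h1.symm (Ne.symm hne) (by omega)
  obtain ⟨a, ha⟩ : ∃ a, K + 1 - i = a + 1 := ⟨K - i, by omega⟩
  have h2 : 2 ^ (K + 1 - i) / 2 = 2 ^ a := by rw [ha, pow_succ]; simp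
  have h3 : 2 ^ (K + 1 - j) ≤ 2 ^ a := Nat.pow_le_pow_right (by norm_num) (by omega)
  have h4 : 0 < 2 ^ a := by positivity
  omega

theorem card_val_lt (N m : ℕ) [NeZero N] (hm : m ≤ N) :
    (univ.filter (fun c : ZMod N => c.val < m)).card = m := by
  have : (univ.filter (fun c : ZMod N => c.val < m)).card = (range m).card := by
    refine Finset.card_bij (fun c _ => c.val) ?_ ?_ ?_
    · intro c hc
      rw [mem_filter] at hc
      exact mem_range.2 hc.2
    · intro a _ b _ hab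
      exact ZMod.val_injective N hab
    · intro b hb
      rw [mem_range] at hb
      refine ⟨(b : ZMod N), ?_, ?_⟩
      · rw [mem_filter, ZMod.val_natCast_of_lt (lt_of_lt_of_le hb hm)]
        exact ⟨mem_univ _, hb⟩
      · exact ZMod.val_natCast_of_lt (lt_of_lt_of_le hb hm)
  rw [this, card_range]

theorem sum_lev (K j : ℕ) (F : Gam K → ℝ) :
    ∑ g ∈ lev K j, F g =
      ∑ c ∈ univ.filter (fun c : ZMod (4 ^ (K + 1)) => c.val < 4 ^ j), F (jump K j, c) := by
  symm
  refine Finset.sum_bij (fun c _ => (jump K j, c)) ?_ ?_ ?_ ?_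
  · intro c hc
    rw [mem_filter] at hc
    rw [mem_lev]
    exact ⟨rfl, hc.2⟩
  · intro a _ b _ hab
    exact (Prod.ext_iff.1 hab).2
  · rintro ⟨g1, g2⟩ hg
    rw [mem_lev] at hg
    refine ⟨g2, ?_, ?_⟩
    · rw [mem_filter]; exact ⟨mem_univ _, hg.2⟩
    · exact Prod.ext hg.1.symm rfl
  · intro c _; rfl

theorem pow_four_le {K j : ℕ} (hj : j < K + 2) : 4 ^ j ≤ 4 ^ (K + 1) :=
  Nat.pow_le_pow_right (by norm_num) (by omega)

theorem card_lev {K j : ℕ} (hj : j < K + 2) : (lev K j).card = 4 ^ j := by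
  have h := sum_lev K j (fun _ => 1)
  simp only [sum_const, nsmul_eq_mul, mul_one] at h
  rw [card_val_lt _ _ (pow_four_le hj)] at h
  exact_mod_cast h

theorem sum_conn_le (K : ℕ) (h : Gam K → ℝ) (h0 : ∀ g, 0 ≤ h g) (hn : ∀ g, h (-g) = h g) :
    ∑ g ∈ conn K, h g ≤ ∑ j ∈ range (K + 2), 2 * ∑ g ∈ lev K j, h g := by
  classical
  have h1 : ∑ g ∈ conn K, h g ≤ ∑ g : Gam K, ∑ j ∈ range (K + 2),
      ((if g ∈ lev K j then h g else 0) + (if -g ∈ lev K j then h g else 0)) := by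
    have hnn : ∀ g : Gam K, ∀ j ∈ range (K + 2),
        0 ≤ ((if g ∈ lev K j then h g else 0) + (if -g ∈ lev K j then h g else 0)) := by
      intro g j _
      apply add_nonneg <;> split_ifs <;> first | exact h0 g | exact le_rfl
    calc ∑ g ∈ conn K, h g ≤ ∑ g ∈ conn K, ∑ j ∈ range (K + 2),
          ((if g ∈ lev K j then h g else 0) + (if -g ∈ lev K j then h g else 0)) := by
          refine Finset.sum_le_sum fun g hg => ?_
          rw [mem_conn] at hg
          obtain ⟨_, j, hj, h2⟩ := hg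
          refine le_trans ?_ (Finset.single_le_sum (hnn g) hj)
          rcases h2 with h2 | h2
          · rw [if_pos h2]
            have : (0 : ℝ) ≤ (if -g ∈ lev K j then h g else 0) := by
              split_ifs <;> first | exact h0 g | exact le_rfl
            linarith
          · rw [if_pos h2]
            have : (0 : ℝ) ≤ (if g ∈ lev K j then h g else 0) := by
              split_ifs <;> first | exact h0 g | exact le_rfl
            linarith
      _ ≤ _ := by
          refine Finset.sum_le_sum_of_subset_of_nonneg (subset_univ _) fun g _ _ => ?_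
          exact Finset.sum_nonneg (hnn g)
  refine h1.trans (le_of_eq ?_)
  rw [Finset.sum_comm]
  refine Finset.sum_congr rfl fun j _ => ?_
  rw [Finset.sum_add_distrib, two_mul]
  congr 1
  · rw [Finset.sum_ite_mem, univ_inter]
  · rw [← Equiv.sum_comp (Equiv.neg (Gam K))]
    simp only [Equiv.neg_apply, neg_neg, hn]
    rw [Finset.sum_ite_mem, univ_inter]

theorem geom4 (m : ℕ) : 3 * ∑ j ∈ range m, (4 : ℝ) ^ j = 4 ^ m - 1 := by
  induction m with
  | zero => simp
  | succ m ih => rw [sum_range_succ, mul_add, ih, pow_succ]; ring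

theorem geom2 (m : ℕ) : ∑ j ∈ range m, (2 : ℝ) ^ j = 2 ^ m - 1 := by
  induction m with
  | zero => simp
  | succ m ih => rw [sum_range_succ, ih, pow_succ]; ring

theorem card_conn_le (K : ℕ) : ((conn K).card : ℝ) ≤ 11 * 4 ^ K := by
  have h := sum_conn_le K (fun _ => 1) (fun _ => zero_le_one) (fun _ => rfl)
  simp only [sum_const, nsmul_eq_mul, mul_one] at h
  have h2 : ∑ j ∈ range (K + 2), (2 : ℝ) * ((lev K j).card : ℝ) =
      2 * ∑ j ∈ range (K + 2), (4 : ℝ) ^ j := by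
    rw [Finset.mul_sum]
    refine Finset.sum_congr rfl fun j hj => ?_
    rw [card_lev (mem_range.1 hj)]
    push_cast
    ring
  rw [h2] at h
  have h3 := geom4 (K + 2)
  have h4 : (4 : ℝ) ^ (K + 2) = 16 * 4 ^ K := by ring
  rw [h4] at h3
  have h5 : (0 : ℝ) < 4 ^ K := by positivity
  nlinarith

theorem lev_last_sub (K : ℕ) : (lev K (K + 1)).erase 0 ⊆ conn K := by
  intro g hg
  rw [mem_erase] at hg
  rw [mem_conn]
  exact ⟨hg.1, K + 1, mem_range.2 (by omega), Or.inl hg.2⟩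

theorem card_conn_ge (K : ℕ) : (3 : ℝ) * 4 ^ K ≤ ((conn K).card : ℝ) := by
  have h1 := card_le_card (lev_last_sub K)
  have h2 : (lev K (K + 1)).card - 1 ≤ ((lev K (K + 1)).erase 0).card := Finset.pred_card_le_card_erase
  rw [card_lev (by omega)] at h2
  have h3 : 1 ≤ 4 ^ K := Nat.one_le_pow _ _ (by norm_num)
  have h4 : 4 ^ (K + 1) = 4 * 4 ^ K := by ring
  have h5 : 3 * 4 ^ K ≤ (conn K).card := by omega
  exact_mod_cast h5

theorem conn_nonempty (K : ℕ) : (conn K).Nonempty := by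
  rw [← Finset.card_pos]
  have h := card_conn_ge K
  have h5 : (0 : ℝ) < 4 ^ K := by positivity
  have : (0 : ℝ) < ((conn K).card : ℝ) := by linarith
  exact_mod_cast this

/-! ### The projected boundary function -/

/-- `E S s = ∑ c, #{v ∈ S : v + (s, c) ∉ S}` -/
noncomputable def E {K : ℕ} (S : Finset (Gam K)) (s : ZMod (2 ^ (K + 1))) : ℝ :=
  ∑ c : ZMod (4 ^ (K + 1)), (bd S (s, c) : ℝ)

theorem E_nonneg {K : ℕ} (S : Finset (Gam K)) (s : ZMod (2 ^ (K + 1))) : 0 ≤ E S s :=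
  Finset.sum_nonneg fun _ _ => Nat.cast_nonneg _

theorem N_pos (K : ℕ) : (0 : ℝ) < 4 ^ (K + 1) := by positivity

theorem card_zmod4 (K : ℕ) : (Fintype.card (ZMod (4 ^ (K + 1))) : ℝ) = 4 ^ (K + 1) := by
  rw [ZMod.card]; push_cast; ring

theorem E_add {K : ℕ} (S : Finset (Gam K)) (s t : ZMod (2 ^ (K + 1))) :
    E S (s + t) ≤ E S s + E S t := by
  have h1 : (4 : ℝ) ^ (K + 1) * E S (s + t) ≤ (4 : ℝ) ^ (K + 1) * (E S s + E S t) := by
    have e1 : (4 : ℝ) ^ (K + 1) * E S (s + t) =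
        ∑ c : ZMod (4 ^ (K + 1)), ∑ _c' : ZMod (4 ^ (K + 1)), (bd S (s + t, c) : ℝ) := by
      simp only [sum_const, card_univ, nsmul_eq_mul, card_zmod4]
      rw [← Finset.mul_sum]; rfl
    have e2 : (4 : ℝ) ^ (K + 1) * (E S s + E S t) =
        ∑ c : ZMod (4 ^ (K + 1)), ∑ c' : ZMod (4 ^ (K + 1)),
          ((bd S (s, c') : ℝ) + (bd S (t, c - c') : ℝ)) := by
      simp only [Finset.sum_add_distrib]
      rw [mul_add]
      congr 1
      · simp only [sum_const, card_univ, nsmul_eq_mul, card_zmod4]; rfl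
      · rw [Finset.sum_comm]
        have : ∀ c' : ZMod (4 ^ (K + 1)),
            ∑ c : ZMod (4 ^ (K + 1)), (bd S (t, c - c') : ℝ) = E S t := by
          intro c'
          exact Equiv.sum_comp (Equiv.subRight c') (fun x => (bd S (t, x) : ℝ))
        simp only [this, sum_const, card_univ, nsmul_eq_mul, card_zmod4]
    rw [e1, e2]
    refine Finset.sum_le_sum fun c _ => Finset.sum_le_sum fun c' _ => ?_
    have h2 : ((s + t, c) : Gam K) = (s, c') + (t, c - c') := by
      ext <;> simp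
    rw [h2]
    exact_mod_cast bd_add S (s, c') (t, c - c')
  exact le_of_mul_le_mul_left h1 (N_pos K)

theorem E_le_int {K : ℕ} (S : Finset (Gam K)) (s : ZMod (2 ^ (K + 1))) (c : ZMod (4 ^ (K + 1))) :
    E S s ≤ 4 ^ (K + 1) * (bd S (s, c) : ℝ) + E S 0 := by
  have e2 : 4 ^ (K + 1) * (bd S (s, c) : ℝ) + E S 0 =
      ∑ c' : ZMod (4 ^ (K + 1)), ((bd S (s, c) : ℝ) + (bd S (0, c' - c) : ℝ)) := by
    rw [Finset.sum_add_distrib]
    congr 1
    · simp only [sum_const, card_univ, nsmul_eq_mul, card_zmod4]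
    · exact (Equiv.sum_comp (Equiv.subRight c) (fun x => (bd S (0, x) : ℝ))).symm
  rw [e2]
  refine Finset.sum_le_sum fun c' _ => ?_
  have h2 : ((s, c') : Gam K) = (s, c) + (0, c' - c) := by
    ext <;> simp
  rw [h2]
  exact_mod_cast bd_add S (s, c) (0, c' - c)

theorem E_total {K : ℕ} (S : Finset (Gam K)) :
    ∑ s, E S s = (S.card : ℝ) * ((Fintype.card (Gam K) : ℝ) - S.card) := by
  have h := bd_sum S
  have h1 : (∑ g : Gam K, (bd S g : ℝ)) = (S.card : ℝ) * ((Fintype.card (Gam K) : ℝ) - S.card) := by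
    rw [← Nat.cast_sum, h, Nat.cast_mul, Nat.cast_sub (Finset.card_le_univ S)]
  rw [← h1, Fintype.sum_prod_type]
  rfl

theorem E_bits {K : ℕ} (S : Finset (Gam K)) (m : ℕ) : ∀ s : ℕ, s < 2 ^ m →
    E S ((s : ℕ) : ZMod (2 ^ (K + 1))) ≤
      E S 0 + ∑ k ∈ range m, E S ((2 ^ k : ℕ) : ZMod (2 ^ (K + 1))) := by
  induction m with
  | zero =>
    intro s hs
    have : s = 0 := by simpa using hs
    subst this
    simp
  | succ m ih =>
    intro s hs
    rw [sum_range_succ]
    have hnn := E_nonneg S ((2 ^ m : ℕ) : ZMod (2 ^ (K + 1)))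
    by_cases h : s < 2 ^ m
    · have := ih s h
      linarith
    · have h1 : s = 2 ^ m + (s - 2 ^ m) := by omega
      have h2 : s - 2 ^ m < 2 ^ m := by rw [pow_succ] at hs; omega
      have h3 := ih _ h2
      have h4 := E_add S ((2 ^ m : ℕ) : ZMod (2 ^ (K + 1))) ((s - 2 ^ m : ℕ) : ZMod (2 ^ (K + 1)))
      rw [← Nat.cast_add, ← h1] at h4
      linarith

theorem E_zero_le {K : ℕ} (S : Finset (Gam K)) :
    E S 0 ≤ 2 * E S ((2 ^ K : ℕ) : ZMod (2 ^ (K + 1))) := by
  have h := E_add S ((2 ^ K : ℕ) : ZMod (2 ^ (K + 1))) ((2 ^ K : ℕ) : ZMod (2 ^ (K + 1)))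
  have h2 : ((2 ^ K : ℕ) : ZMod (2 ^ (K + 1))) + ((2 ^ K : ℕ) : ZMod (2 ^ (K + 1))) = 0 := by
    rw [← Nat.cast_add]
    have : 2 ^ K + 2 ^ K = 2 ^ (K + 1) := by ring
    rw [this]
    exact ZMod.natCast_self _
  rw [h2] at h
  linarith

theorem E_sum_ge {K : ℕ} (S : Finset (Gam K)) (hS : 2 * S.card ≤ Fintype.card (Gam K)) :
    (S.card : ℝ) * 4 ^ (K + 1) ≤
      6 * ∑ k ∈ range (K + 1), E S ((2 ^ k : ℕ) : ZMod (2 ^ (K + 1))) := by
  set T := ∑ k ∈ range (K + 1), E S ((2 ^ k : ℕ) : ZMod (2 ^ (K + 1))) with hT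
  have h1 : E S ((2 ^ K : ℕ) : ZMod (2 ^ (K + 1))) ≤ T := by
    rw [hT]
    exact Finset.single_le_sum (f := fun k => E S ((2 ^ k : ℕ) : ZMod (2 ^ (K + 1))))
      (fun k _ => E_nonneg S _) (mem_range.2 (by omega))
  have h2 : ∀ s : ZMod (2 ^ (K + 1)), E S s ≤ 3 * T := by
    intro s
    have := E_bits S (K + 1) s.val (ZMod.val_lt s)
    rw [ZMod.natCast_zmod_val] at this
    have h3 := E_zero_le S
    linarith
  have h3 : ∑ s, E S s ≤ (2 : ℝ) ^ (K + 1) * (3 * T) := by
    calc ∑ s, E S s ≤ ∑ _s : ZMod (2 ^ (K + 1)), 3 * T := Finset.sum_le_sum fun s _ => h2 s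
      _ = _ := by
        rw [sum_const, card_univ, nsmul_eq_mul, ZMod.card]; push_cast; ring
  rw [E_total] at h3
  have h4 : (Fintype.card (Gam K) : ℝ) = 2 ^ (K + 1) * 4 ^ (K + 1) := by
    rw [Fintype.card_prod, ZMod.card, ZMod.card]; push_cast; ring
  have h5 : (2 : ℝ) * S.card ≤ Fintype.card (Gam K) := by exact_mod_cast hS
  have h6 : (S.card : ℝ) * (Fintype.card (Gam K) / 2) ≤
      (S.card : ℝ) * ((Fintype.card (Gam K) : ℝ) - S.card) := by
    apply mul_le_mul_of_nonneg_left _ (Nat.cast_nonneg _)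
    linarith
  rw [h4] at h6 h3
  have h7 : (0 : ℝ) < 2 ^ (K + 1) := by positivity
  have h8 : (2 : ℝ) ^ (K + 1) * ((S.card : ℝ) * 4 ^ (K + 1)) ≤ 2 ^ (K + 1) * (6 * T) := by
    calc (2 : ℝ) ^ (K + 1) * ((S.card : ℝ) * 4 ^ (K + 1)) =
        2 * ((S.card : ℝ) * (2 ^ (K + 1) * 4 ^ (K + 1) / 2)) := by ring
      _ ≤ 2 * (2 ^ (K + 1) * (3 * T)) := by linarith
      _ = _ := by ring
  exact le_of_mul_le_mul_left h8 h7

theorem E_cheb {K : ℕ} (S : Finset (Gam K)) :
    ((K + 1 : ℕ) : ℝ) * ∑ k ∈ range (K + 1), E S ((2 ^ k : ℕ) : ZMod (2 ^ (K + 1))) ≤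
      2 ^ (K + 1) * ∑ k ∈ range (K + 1), E S ((2 ^ k : ℕ) : ZMod (2 ^ (K + 1))) / 2 ^ k := by
  have hanti : Antitone (fun k : ℕ => E S ((2 ^ k : ℕ) : ZMod (2 ^ (K + 1))) / 2 ^ k) := by
    apply antitone_nat_of_succ_le
    intro k
    have h := E_add S ((2 ^ k : ℕ) : ZMod (2 ^ (K + 1))) ((2 ^ k : ℕ) : ZMod (2 ^ (K + 1)))
    rw [← Nat.cast_add] at h
    have e : 2 ^ k + 2 ^ k = 2 ^ (k + 1) := by ring
    rw [e] at h
    have hp : (0 : ℝ) < 2 ^ k := by positivity
    have e2 : (2 : ℝ) ^ (k + 1) = 2 ^ k * 2 := pow_succ _ _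
    rw [div_le_div_iff₀ (by positivity) hp, e2]
    nlinarith
  have hav : AntivaryOn (fun k : ℕ => E S ((2 ^ k : ℕ) : ZMod (2 ^ (K + 1))) / 2 ^ k)
      (fun k : ℕ => (2 : ℝ) ^ k) (range (K + 1) : Set ℕ) := by
    intro i _ j _ hij
    apply hanti
    by_contra hcon
    have : j ≤ i := by omega
    have h2 : (2 : ℝ) ^ j ≤ 2 ^ i := pow_le_pow_right₀ (by norm_num) this
    exact absurd hij (not_lt.2 h2)
  have h := hav.card_mul_sum_le_sum_mul_sum
  rw [card_range, geom2] at h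
  have e1 : ∑ k ∈ range (K + 1), E S ((2 ^ k : ℕ) : ZMod (2 ^ (K + 1))) / 2 ^ k * (2 : ℝ) ^ k =
      ∑ k ∈ range (K + 1), E S ((2 ^ k : ℕ) : ZMod (2 ^ (K + 1))) := by
    refine Finset.sum_congr rfl fun k _ => ?_
    have hp : (2 : ℝ) ^ k ≠ 0 := by positivity
    field_simp
  rw [e1] at h
  have hnn : 0 ≤ ∑ k ∈ range (K + 1), E S ((2 ^ k : ℕ) : ZMod (2 ^ (K + 1))) / 2 ^ k :=
    Finset.sum_nonneg fun k _ => div_nonneg (E_nonneg S _) (by positivity)
  nlinarith

/-! ### The pointwise inequality -/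

theorem pointwise (y : ℕ → ℝ) (h0 : ∀ j, 0 ≤ y j) (h1 : ∀ j, y j ≤ 4 ^ j) (m : ℕ) :
    ∑ j ∈ range m, y j / 2 ^ j ≤ 2 ^ m ∧
      (∑ j ∈ range m, y j / 2 ^ j) ^ 2 ≤ 3 * ∑ j ∈ range m, y j := by
  induction m with
  | zero => simp
  | succ m ih =>
    obtain ⟨ih1, ih2⟩ := ih
    rw [sum_range_succ, sum_range_succ]
    set A := ∑ j ∈ range m, y j / 2 ^ j with hA
    have hp : (0 : ℝ) < 2 ^ m := by positivity
    have hp4 : (4 : ℝ) ^ m = 2 ^ m * 2 ^ m := by
      rw [← mul_pow]; norm_num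
    have hy1 : y m / 2 ^ m ≤ 2 ^ m := by
      rw [div_le_iff₀ hp, ← hp4]; exact h1 m
    have hy0 : 0 ≤ y m / 2 ^ m := div_nonneg (h0 m) hp.le
    have hy2 : (y m / 2 ^ m) * 2 ^ m = y m := by field_simp
    constructor
    · rw [pow_succ]; linarith
    · have h3 : (A + y m / 2 ^ m) ^ 2 = A ^ 2 + 2 * A * (y m / 2 ^ m) + (y m / 2 ^ m) ^ 2 := by ring
      rw [h3]
      have h4 : 2 * A * (y m / 2 ^ m) ≤ 2 * y m := by
        calc 2 * A * (y m / 2 ^ m) ≤ 2 * 2 ^ m * (y m / 2 ^ m) := by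
              apply mul_le_mul_of_nonneg_right _ hy0
              linarith
          _ = 2 * ((y m / 2 ^ m) * 2 ^ m) := by ring
          _ = 2 * y m := by rw [hy2]
      have h5 : (y m / 2 ^ m) ^ 2 ≤ y m := by
        calc (y m / 2 ^ m) ^ 2 = (y m / 2 ^ m) * (y m / 2 ^ m) := by ring
          _ ≤ (y m / 2 ^ m) * 2 ^ m := mul_le_mul_of_nonneg_left hy1 hy0
          _ = y m := hy2
      linarith

/-- the number of level-`j` steps leaving `S` from `v`. -/
def yy {K : ℕ} (S : Finset (Gam K)) (v : Gam K) (j : ℕ) : ℕ :=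
  ((lev K j).filter (fun c => v + c ∉ S)).card

theorem yy_sum_le {K : ℕ} (S : Finset (Gam K)) (v : Gam K) (hv : v ∈ S) :
    ∑ j ∈ range (K + 2), yy S v j ≤ ((conn K).filter (fun c => v + c ∉ S)).card := by
  classical
  unfold yy
  rw [← Finset.card_biUnion]
  · apply card_le_card
    intro c hc
    rw [mem_biUnion] at hc
    obtain ⟨j, hj, hc⟩ := hc
    rw [mem_filter] at hc ⊢
    refine ⟨mem_conn.2 ⟨?_, j, hj, Or.inl hc.1⟩, hc.2⟩
    rintro rfl
    apply hc.2
    rwa [add_zero]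
  · intro i hi j hj hij
    rw [Function.onFun, Finset.disjoint_left]
    intro c h1 h2
    rw [mem_filter, mem_lev] at h1 h2
    exact hij (jump_inj (mem_range.1 hi) (mem_range.1 hj) (h1.1.1.symm.trans h2.1.1))

theorem yy_le {K : ℕ} (S : Finset (Gam K)) (v : Gam K) {j : ℕ} (hj : j < K + 2) :
    yy S v j ≤ 4 ^ j := by
  rw [← card_lev hj]
  exact card_filter_le _ _

theorem yy_pointwise {K : ℕ} (S : Finset (Gam K)) (v : Gam K) (hv : v ∈ S) :
    ∑ j ∈ range (K + 2), (yy S v j : ℝ) / 2 ^ j ≤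
      2 * Real.sqrt (((conn K).filter (fun c => v + c ∉ S)).card : ℝ) := by
  have h := pointwise (fun j => if j < K + 2 then (yy S v j : ℝ) else 0)
    (fun j => by split_ifs <;> positivity)
    (fun j => by
      split_ifs with h
      · exact_mod_cast yy_le S v h
      · positivity) (K + 2)
  have e1 : ∑ j ∈ range (K + 2), (if j < K + 2 then (yy S v j : ℝ) else 0) / 2 ^ j =
      ∑ j ∈ range (K + 2), (yy S v j : ℝ) / 2 ^ j :=
    Finset.sum_congr rfl fun j hj => by rw [if_pos (mem_range.1 hj)]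
  have e2 : ∑ j ∈ range (K + 2), (if j < K + 2 then (yy S v j : ℝ) else 0) =
      ∑ j ∈ range (K + 2), (yy S v j : ℝ) :=
    Finset.sum_congr rfl fun j hj => by rw [if_pos (mem_range.1 hj)]
  rw [e1, e2] at h
  have h2 : ∑ j ∈ range (K + 2), (yy S v j : ℝ) ≤
      (((conn K).filter (fun c => v + c ∉ S)).card : ℝ) := by
    exact_mod_cast yy_sum_le S v hv
  have h3 : ∑ j ∈ range (K + 2), (yy S v j : ℝ) / 2 ^ j ≤
      Real.sqrt (4 * (((conn K).filter (fun c => v + c ∉ S)).card : ℝ)) := by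
    apply Real.le_sqrt_of_sq_le
    have : (0 : ℝ) ≤ (((conn K).filter (fun c => v + c ∉ S)).card : ℝ) := Nat.cast_nonneg _
    linarith [h.2]
  have h4 : Real.sqrt (4 * (((conn K).filter (fun c => v + c ∉ S)).card : ℝ)) =
      2 * Real.sqrt (((conn K).filter (fun c => v + c ∉ S)).card : ℝ) := by
    rw [Real.sqrt_mul (by norm_num)]
    congr 1
    rw [show (4 : ℝ) = 2 ^ 2 by norm_num]
    exact Real.sqrt_sq (by norm_num)
  rw [h4] at h3
  exact h3

theorem yy_swap {K : ℕ} (S : Finset (Gam K)) (j : ℕ) :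
    ∑ v ∈ S, (yy S v j : ℝ) = ∑ g ∈ lev K j, (bd S g : ℝ) := by
  have h1 : ∀ v, (yy S v j : ℝ) = ∑ g ∈ lev K j, if v + g ∉ S then (1 : ℝ) else 0 := by
    intro v
    rw [yy, Finset.card_filter]; push_cast; rfl
  have h2 : ∀ g, (bd S g : ℝ) = ∑ v ∈ S, if v + g ∉ S then (1 : ℝ) else 0 := by
    intro g
    rw [bd, Finset.card_filter]; push_cast; rfl
  simp_rw [h1, h2]
  exact Finset.sum_comm

theorem jump_last (K : ℕ) : jump K (K + 1) = 0 := by
  simp [jump]

theorem jump_lt {K j : ℕ} (hj : j < K + 1) :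
    jump K j = ((2 ^ (K - j) : ℕ) : ZMod (2 ^ (K + 1))) := by
  unfold jump
  congr 1
  have : K + 1 - j = (K - j) + 1 := by omega
  rw [this, pow_succ]
  simp

theorem lev_last {K : ℕ} (S : Finset (Gam K)) :
    ∑ g ∈ lev K (K + 1), (bd S g : ℝ) = E S 0 := by
  rw [sum_lev, jump_last]
  unfold E
  refine Finset.sum_congr ?_ fun _ _ => rfl
  ext c
  simp only [mem_filter, mem_univ, true_and, iff_true]
  exact ZMod.val_lt c

theorem lev_ge {K j : ℕ} (hj : j < K + 1) (S : Finset (Gam K)) :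
    (4 : ℝ) ^ j * ((E S ((2 ^ (K - j) : ℕ) : ZMod (2 ^ (K + 1))) - E S 0) / 4 ^ (K + 1)) ≤
      ∑ g ∈ lev K j, (bd S g : ℝ) := by
  rw [sum_lev, jump_lt hj]
  have h1 : ∀ c ∈ univ.filter (fun c : ZMod (4 ^ (K + 1)) => c.val < 4 ^ j),
      (E S ((2 ^ (K - j) : ℕ) : ZMod (2 ^ (K + 1))) - E S 0) / 4 ^ (K + 1) ≤
        (bd S (((2 ^ (K - j) : ℕ) : ZMod (2 ^ (K + 1))), c) : ℝ) := by
    intro c _
    rw [div_le_iff₀ (N_pos K)]
    have := E_le_int S ((2 ^ (K - j) : ℕ) : ZMod (2 ^ (K + 1))) c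
    linarith
  have h2 := Finset.card_nsmul_le_sum _ _ _ h1
  rw [card_val_lt _ _ (pow_four_le (by omega)), nsmul_eq_mul] at h2
  push_cast at h2 ⊢
  exact h2

theorem iso {K : ℕ} (S : Finset (Gam K)) (hS : 2 * S.card ≤ Fintype.card (Gam K)) :
    ((K + 1 : ℕ) : ℝ) / 24 * S.card ≤
      ∑ v ∈ S, Real.sqrt (((conn K).filter (fun c => v + c ∉ S)).card : ℝ) := by
  -- sum of the pointwise inequality
  have h1 : ∑ j ∈ range (K + 2), (∑ g ∈ lev K j, (bd S g : ℝ)) / 2 ^ j ≤
      2 * ∑ v ∈ S, Real.sqrt (((conn K).filter (fun c => v + c ∉ S)).card : ℝ) := by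
    have e : ∑ j ∈ range (K + 2), (∑ g ∈ lev K j, (bd S g : ℝ)) / 2 ^ j =
        ∑ v ∈ S, ∑ j ∈ range (K + 2), (yy S v j : ℝ) / 2 ^ j := by
      rw [Finset.sum_comm]
      refine Finset.sum_congr rfl fun j _ => ?_
      rw [← yy_swap, Finset.sum_div]
    rw [e, Finset.mul_sum]
    exact Finset.sum_le_sum fun v hv => yy_pointwise S v hv
  rw [sum_range_succ, lev_last] at h1
  have h2 : ∑ j ∈ range (K + 1),
      (2 : ℝ) ^ j * ((E S ((2 ^ (K - j) : ℕ) : ZMod (2 ^ (K + 1))) - E S 0) / 4 ^ (K + 1)) ≤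
      ∑ j ∈ range (K + 1), (∑ g ∈ lev K j, (bd S g : ℝ)) / 2 ^ j := by
    refine Finset.sum_le_sum fun j hj => ?_
    have := lev_ge (mem_range.1 hj) S
    have hp : (0 : ℝ) < 2 ^ j := by positivity
    rw [le_div_iff₀ hp]
    refine le_trans (le_of_eq ?_) this
    have hp4 : (4 : ℝ) ^ j = 2 ^ j * 2 ^ j := by
      rw [← mul_pow]; norm_num
    rw [hp4]
    ring
  have h3 : ∑ j ∈ range (K + 1),
      (2 : ℝ) ^ j * ((E S ((2 ^ (K - j) : ℕ) : ZMod (2 ^ (K + 1))) - E S 0) / 4 ^ (K + 1)) =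
      (∑ j ∈ range (K + 1), (2 : ℝ) ^ j * E S ((2 ^ (K - j) : ℕ) : ZMod (2 ^ (K + 1)))
        - (2 ^ (K + 1) - 1) * E S 0) / 4 ^ (K + 1) := by
    rw [← geom2, Finset.sum_mul, ← Finset.sum_sub_distrib, Finset.sum_div]
    refine Finset.sum_congr rfl fun j _ => ?_
    ring
  have h4 : E S 0 / 2 ^ (K + 1) = 2 ^ (K + 1) * E S 0 / 4 ^ (K + 1) := by
    have hp4 : (4 : ℝ) ^ (K + 1) = 2 ^ (K + 1) * 2 ^ (K + 1) := by
      rw [← mul_pow]; norm_num
    rw [hp4]
    have hp : (2 : ℝ) ^ (K + 1) ≠ 0 := by positivity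
    field_simp
  have h5 : (∑ j ∈ range (K + 1), (2 : ℝ) ^ j * E S ((2 ^ (K - j) : ℕ) : ZMod (2 ^ (K + 1)))) /
      4 ^ (K + 1) ≤ 2 * ∑ v ∈ S, Real.sqrt (((conn K).filter (fun c => v + c ∉ S)).card : ℝ) := by
    rw [h3] at h2
    rw [h4] at h1
    have hnn := E_nonneg S (0 : ZMod (2 ^ (K + 1)))
    have h6 : (∑ j ∈ range (K + 1), (2 : ℝ) ^ j * E S ((2 ^ (K - j) : ℕ) : ZMod (2 ^ (K + 1)))) /
        4 ^ (K + 1) ≤ (∑ j ∈ range (K + 1), (2 : ℝ) ^ j *
          E S ((2 ^ (K - j) : ℕ) : ZMod (2 ^ (K + 1)))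
        - (2 ^ (K + 1) - 1) * E S 0) / 4 ^ (K + 1) + 2 ^ (K + 1) * E S 0 / 4 ^ (K + 1) := by
      rw [← add_div]
      apply div_le_div_of_nonneg_right _ (N_pos K).le
      linarith
    linarith
  have h6 : ∑ j ∈ range (K + 1), (2 : ℝ) ^ j * E S ((2 ^ (K - j) : ℕ) : ZMod (2 ^ (K + 1))) =
      2 ^ K * ∑ k ∈ range (K + 1), E S ((2 ^ k : ℕ) : ZMod (2 ^ (K + 1))) / 2 ^ k := by
    rw [← Finset.sum_range_reflect, Finset.mul_sum]
    refine Finset.sum_congr rfl fun k hk => ?_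
    have hk' : k < K + 1 := mem_range.1 hk
    have e1 : K + 1 - 1 - k = K - k := by omega
    have e2 : K - (K - k) = k := by omega
    rw [e1, e2]
    have e3 : (2 : ℝ) ^ K = 2 ^ (K - k) * 2 ^ k := by
      rw [← pow_add]; congr 1; omega
    rw [e3]
    have hp : (2 : ℝ) ^ k ≠ 0 := by positivity
    field_simp
  rw [h6] at h5
  have h7 := E_cheb S
  have h8 := E_sum_ge S hS
  set T := ∑ k ∈ range (K + 1), E S ((2 ^ k : ℕ) : ZMod (2 ^ (K + 1)))
  set Q := ∑ k ∈ range (K + 1), E S ((2 ^ k : ℕ) : ZMod (2 ^ (K + 1))) / 2 ^ k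
  set R := ∑ v ∈ S, Real.sqrt (((conn K).filter (fun c => v + c ∉ S)).card : ℝ)
  have hN := N_pos K
  rw [div_le_iff₀ hN] at h5
  -- 2^K * Q ≤ 2 R N ;  (K+1) T ≤ 2^(K+1) Q ; |S| N ≤ 6 T
  have h9 : ((K + 1 : ℕ) : ℝ) * ((S.card : ℝ) * 4 ^ (K + 1)) ≤ ((K + 1 : ℕ) : ℝ) * (6 * T) :=
    mul_le_mul_of_nonneg_left h8 (Nat.cast_nonneg _)
  have h10 : (2 : ℝ) ^ (K + 1) = 2 * 2 ^ K := by ring
  have h11 : (((K + 1 : ℕ) : ℝ) / 24 * S.card) * 4 ^ (K + 1) ≤ R * 4 ^ (K + 1) := by
    rw [h10] at h7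
    linarith
  exact le_of_mul_le_mul_right h11 hN

end Main

section Final

variable (K : ℕ)

/-- The graph. -/
abbrev gr (K : ℕ) : SimpleGraph (Gam K) := cay (conn K) (conn_zero K) (conn_neg K)

theorem card_gam (K : ℕ) : Fintype.card (Gam K) = 2 ^ (K + 1) * 4 ^ (K + 1) := by
  rw [Fintype.card_prod, ZMod.card, ZMod.card]

theorem two_le_card (K : ℕ) : 2 ≤ Fintype.card (Gam K) := by
  rw [card_gam]
  have h1 : 2 ^ 1 ≤ 2 ^ (K + 1) := Nat.pow_le_pow_right (by norm_num) (by omega)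
  have h2 : 1 ≤ 4 ^ (K + 1) := Nat.one_le_pow _ _ (by norm_num)
  nlinarith

theorem one_mem_lev (K : ℕ) : ((1, 0) : Gam K) ∈ lev K K := by
  rw [mem_lev]
  refine ⟨?_, ?_⟩
  · rw [jump_lt (by omega)]; simp
  · simp

theorem two_pow_gt (K : ℕ) : 1 < 2 ^ (K + 1) := Nat.one_lt_pow (by omega) (by norm_num)

theorem one_ne_zero' (K : ℕ) : (1 : ZMod (2 ^ (K + 1))) ≠ 0 := by
  haveI : Fact (1 < 2 ^ (K + 1)) := ⟨two_pow_gt K⟩
  exact one_ne_zero

theorem one_mem_conn (K : ℕ) : ((1, 0) : Gam K) ∈ conn K := by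
  rw [mem_conn]
  refine ⟨?_, K, mem_range.2 (by omega), Or.inl (one_mem_lev K)⟩
  intro h
  exact one_ne_zero' K (Prod.ext_iff.1 h).1

theorem vert_mem_conn (K : ℕ) (a : ZMod (4 ^ (K + 1))) (ha : a ≠ 0) : ((0, a) : Gam K) ∈ conn K := by
  rw [mem_conn]
  refine ⟨?_, K + 1, mem_range.2 (by omega), Or.inl ?_⟩
  · intro h
    exact ha (Prod.ext_iff.1 h).2
  · rw [mem_lev, jump_last]
    exact ⟨rfl, ZMod.val_lt a⟩

theorem gr_connected (K : ℕ) : (gr K).Connected := by
  have h1 : ∀ m : ℕ, (gr K).Reachable (0 : Gam K) (((m : ℕ) : ZMod (2 ^ (K + 1))), 0) := by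
    intro m
    induction m with
    | zero =>
      have : ((((0 : ℕ) : ZMod (2 ^ (K + 1))), 0) : Gam K) = 0 := by simp
      rw [this]
    | succ m ih =>
      refine ih.trans (SimpleGraph.Adj.reachable ?_)
      rw [cay_adj]
      have : ((((m + 1 : ℕ) : ZMod (2 ^ (K + 1))), 0) : Gam K) - (((m : ℕ) : ZMod (2 ^ (K + 1))), 0) =
          (1, 0) := by
        ext <;> simp
      rw [this]
      exact one_mem_conn K
  have h2 : ∀ v : Gam K, (gr K).Reachable (0 : Gam K) v := by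
    rintro ⟨i, a⟩
    have h3 := h1 i.val
    rw [ZMod.natCast_zmod_val] at h3
    by_cases ha : a = 0
    · subst ha; exact h3
    · refine h3.trans (SimpleGraph.Adj.reachable ?_)
      rw [cay_adj]
      have : ((i, a) : Gam K) - (i, 0) = (0, a) := by ext <;> simp
      rw [this]
      exact vert_mem_conn K a ha
  have : Nonempty (Gam K) := ⟨0⟩
  exact ⟨fun u v => (h2 u).symm.trans (h2 v)⟩

/-! ### The eigenvector -/

noncomputable def co (K : ℕ) (x : ZMod (2 ^ (K + 1))) : ℝ := (ZMod.stdAddChar x : ℂ).re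
noncomputable def si (K : ℕ) (x : ZMod (2 ^ (K + 1))) : ℝ := (ZMod.stdAddChar x : ℂ).im

theorem co_add (K : ℕ) (x y : ZMod (2 ^ (K + 1))) : co K (x + y) = co K x * co K y - si K x * si K y := by
  unfold co si
  rw [AddChar.map_add_eq_mul, Complex.mul_re]

theorem co_natCast (K : ℕ) (m : ℕ) : co K (m : ZMod (2 ^ (K + 1))) = Real.cos (2 * Real.pi * m / 2 ^ (K + 1)) := by
  unfold co
  have h := ZMod.stdAddChar_coe (N := 2 ^ (K + 1)) (m : ℤ)
  rw [Int.cast_natCast] at h
  rw [h]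
  have e : (2 * (Real.pi : ℂ) * Complex.I * ((m : ℤ) : ℂ) / ((2 ^ (K + 1) : ℕ) : ℂ)) =
      ((2 * Real.pi * m / 2 ^ (K + 1) : ℝ) : ℂ) * Complex.I := by
    push_cast
    ring
  rw [e, Complex.exp_ofReal_mul_I_re]

theorem co_neg (K : ℕ) (x : ZMod (2 ^ (K + 1))) : co K (-x) = co K x := by
  unfold co
  rw [ZMod.stdAddChar_apply, ZMod.stdAddChar_apply, AddChar.map_neg_eq_inv, Circle.coe_inv_eq_conj]
  simp

theorem si_neg (K : ℕ) (x : ZMod (2 ^ (K + 1))) : si K (-x) = - si K x := by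
  unfold si
  rw [ZMod.stdAddChar_apply, ZMod.stdAddChar_apply, AddChar.map_neg_eq_inv, Circle.coe_inv_eq_conj]
  simp

theorem co_le_one (K : ℕ) (x : ZMod (2 ^ (K + 1))) : co K x ≤ 1 := by
  have h := co_natCast K x.val
  rw [ZMod.natCast_zmod_val] at h
  rw [h]
  exact Real.cos_le_one _

theorem si_sum (K : ℕ) : ∑ c ∈ conn K, si K c.1 = 0 := by
  have h : ∑ c ∈ conn K, si K c.1 = ∑ c ∈ conn K, - si K c.1 := by
    refine Finset.sum_bij (fun c _ => -c) (fun c hc => conn_neg K c hc) ?_ ?_ ?_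
    · intro a _ b _ hab; exact neg_injective hab
    · intro b hb; exact ⟨-b, conn_neg K b hb, neg_neg b⟩
    · intro c _
      show si K c.1 = - si K (-c.1)
      rw [si_neg, neg_neg]
  rw [Finset.sum_neg_distrib] at h
  linarith

theorem eig (K : ℕ) (v : Gam K) :
    ∑ c ∈ conn K, co K (v + c).1 = (∑ c ∈ conn K, co K c.1) * co K v.1 := by
  have h : ∀ c : Gam K, co K (v + c).1 = co K v.1 * co K c.1 - si K v.1 * si K c.1 := by
    intro c
    exact co_add K v.1 c.1
  simp_rw [h]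
  rw [Finset.sum_sub_distrib, ← Finset.mul_sum, ← Finset.mul_sum, si_sum]
  ring

theorem one_sub_co_le (K j : ℕ) (hj : j < K + 2) :
    4 ^ j * (1 - co K (jump K j)) ≤ Real.pi ^ 2 / 2 := by
  by_cases hj' : j < K + 1
  · rw [jump_lt hj', co_natCast]
    have h1 := Real.one_sub_sq_div_two_le_cos (x := 2 * Real.pi * ((2 ^ (K - j) : ℕ) : ℝ) / 2 ^ (K + 1))
    have e : 2 * Real.pi * ((2 ^ (K - j) : ℕ) : ℝ) / 2 ^ (K + 1) = Real.pi / 2 ^ j := by
      push_cast
      have e3 : (2 : ℝ) ^ (K + 1) = 2 * (2 ^ (K - j) * 2 ^ j) := by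
        rw [← pow_add, ← pow_succ']; congr 1; omega
      rw [e3]
      have hp : (2 : ℝ) ^ j ≠ 0 := by positivity
      have hp' : (2 : ℝ) ^ (K - j) ≠ 0 := by positivity
      field_simp
    rw [e] at h1 ⊢
    have h2 : 1 - Real.cos (Real.pi / 2 ^ j) ≤ (Real.pi / 2 ^ j) ^ 2 / 2 := by linarith
    have hp4 : (4 : ℝ) ^ j = 2 ^ j * 2 ^ j := by
      rw [← mul_pow]; norm_num
    calc (4 : ℝ) ^ j * (1 - Real.cos (Real.pi / 2 ^ j)) ≤ 4 ^ j * ((Real.pi / 2 ^ j) ^ 2 / 2) :=
          mul_le_mul_of_nonneg_left h2 (by positivity)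
      _ = Real.pi ^ 2 / 2 := by
          rw [hp4]
          have hp : (2 : ℝ) ^ j ≠ 0 := by positivity
          field_simp
  · have : j = K + 1 := by omega
    subst this
    rw [jump_last]
    have h0 : co K 0 = 1 := by
      have := co_natCast K 0
      simpa using this
    rw [h0, sub_self, mul_zero]
    positivity

theorem one_sub_co_last (K : ℕ) : 1 - co K (jump K (K + 1)) = 0 := by
  rw [jump_last]
  have h0 : co K 0 = 1 := by
    have := co_natCast K 0
    simpa using this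
  rw [h0, sub_self]

theorem sum_one_sub_co (K : ℕ) : ∑ c ∈ conn K, (1 - co K c.1) ≤ (K + 1 : ℝ) * Real.pi ^ 2 := by
  have h := sum_conn_le K (fun c => 1 - co K c.1) (fun g => by have := co_le_one K g.1; linarith)
    (fun g => by
      show 1 - co K (-g.1) = 1 - co K g.1
      rw [co_neg])
  refine h.trans ?_
  have h2 : ∀ j ∈ range (K + 2), 2 * ∑ g ∈ lev K j, (1 - co K g.1) =
      2 * (4 ^ j * (1 - co K (jump K j))) := by
    intro j hj
    have : ∑ g ∈ lev K j, (1 - co K g.1) = ∑ g ∈ lev K j, (1 - co K (jump K j)) := by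
      refine Finset.sum_congr rfl fun g hg => ?_
      rw [(mem_lev.1 hg).1]
    rw [this, Finset.sum_const, card_lev (mem_range.1 hj), nsmul_eq_mul]
    push_cast
    ring
  rw [Finset.sum_congr rfl h2, sum_range_succ, one_sub_co_last]
  simp only [mul_zero, add_zero]
  calc ∑ j ∈ range (K + 1), 2 * (4 ^ j * (1 - co K (jump K j))) ≤
      ∑ _j ∈ range (K + 1), 2 * (Real.pi ^ 2 / 2) := by
        refine Finset.sum_le_sum fun j hj => ?_
        have := one_sub_co_le K j (by have := mem_range.1 hj; omega)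
        linarith
    _ = (K + 1 : ℝ) * Real.pi ^ 2 := by
        rw [Finset.sum_const, card_range, nsmul_eq_mul]
        push_cast
        ring

theorem co_one_lt (K : ℕ) : co K 1 < 1 := by
  have h := co_natCast K 1
  rw [Nat.cast_one] at h
  rw [h, ← Real.cos_zero]
  have h2 : (2 : ℝ) ≤ 2 ^ (K + 1) := by
    have : (2 : ℝ) ^ 1 ≤ 2 ^ (K + 1) := pow_le_pow_right₀ (by norm_num) (by omega)
    simpa using this
  have hpi := Real.pi_pos
  apply Real.strictAntiOn_cos
  · exact ⟨le_rfl, hpi.le⟩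
  · constructor
    · positivity
    · rw [div_le_iff₀ (by positivity)]
      push_cast
      nlinarith
  · push_cast
    positivity

theorem lambda2_bound (K : ℕ) : lambda2 (gr K) ≤ 4 * (K + 1 : ℝ) / 4 ^ K := by
  have hcard := card_conn_ge K
  have hp4 : (0 : ℝ) < 4 ^ K := by positivity
  have hCpos : (0 : ℝ) < ((conn K).card : ℝ) := by linarith
  have hlt : ∑ c ∈ conn K, co K c.1 < ((conn K).card : ℝ) := by
    have : ∑ c ∈ conn K, co K c.1 < ∑ _c ∈ conn K, (1 : ℝ) := by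
      apply Finset.sum_lt_sum
      · intro c _; exact co_le_one K c.1
      · exact ⟨(1, 0), one_mem_conn K, co_one_lt K⟩
    simpa using this
  have hf : (fun v : Gam K => co K v.1) ≠ 0 := by
    intro h
    have h1 := congrFun h 0
    have h0 : co K 0 = 1 := by
      have := co_natCast K 0
      simpa using this
    simp only [Prod.fst_zero, Pi.zero_apply] at h1
    rw [h0] at h1
    exact one_ne_zero h1
  have h := cay_lambda2_le (conn K) (conn_zero K) (conn_neg K) (conn_nonempty K)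
    (fun v => co K v.1) hf (∑ c ∈ conn K, co K c.1) (eig K) hlt
  refine h.trans ?_
  have h3 : 1 - (∑ c ∈ conn K, co K c.1) / ((conn K).card : ℝ) =
      (∑ c ∈ conn K, (1 - co K c.1)) / ((conn K).card : ℝ) := by
    rw [Finset.sum_sub_distrib, Finset.sum_const, nsmul_eq_mul, mul_one, sub_div,
      div_self hCpos.ne']
  rw [h3, div_le_div_iff₀ hCpos hp4]
  have h4 := sum_one_sub_co K
  have hpi : Real.pi ^ 2 ≤ 12 := by
    have h5 := Real.pi_lt_d2
    have h6 := Real.pi_pos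
    nlinarith
  have hK : (0 : ℝ) < K + 1 := by positivity
  calc (∑ c ∈ conn K, (1 - co K c.1)) * 4 ^ K ≤ ((K + 1 : ℝ) * 12) * 4 ^ K := by
        apply mul_le_mul_of_nonneg_right _ hp4.le
        nlinarith
    _ = 4 * (K + 1 : ℝ) * (3 * 4 ^ K) := by ring
    _ ≤ 4 * (K + 1 : ℝ) * (conn K).card := by
        apply mul_le_mul_of_nonneg_left hcard
        positivity

theorem phi_bound (K : ℕ) : (K + 1 : ℝ) / (96 * 2 ^ K) ≤ phi (1 / 2) (gr K) := by
  have h := cay_phi_ge (conn K) (conn_zero K) (conn_neg K) (conn_nonempty K) (two_le_card K)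
    (((K + 1 : ℕ) : ℝ) / 24) (fun S _ hS => iso S hS)
  refine le_trans ?_ h
  have h1 := card_conn_le K
  have h2 : Real.sqrt ((conn K).card : ℝ) ≤ 4 * 2 ^ K := by
    rw [Real.sqrt_le_left (by positivity)]
    have hp4 : (4 : ℝ) ^ K = 2 ^ K * 2 ^ K := by
      rw [← mul_pow]; norm_num
    rw [hp4] at h1
    have : (0 : ℝ) < 2 ^ K := by positivity
    nlinarith
  have h3 : (0 : ℝ) < Real.sqrt ((conn K).card : ℝ) := by
    apply Real.sqrt_pos.2
    exact_mod_cast (conn_nonempty K).card_pos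
  rw [div_le_div_iff₀ (by positivity) h3]
  push_cast
  have hK : (0 : ℝ) ≤ (K + 1 : ℝ) / 24 := by positivity
  calc (K + 1 : ℝ) * Real.sqrt ((conn K).card : ℝ) ≤ (K + 1 : ℝ) * (4 * 2 ^ K) :=
        mul_le_mul_of_nonneg_left h2 (by positivity)
    _ = (K + 1 : ℝ) / 24 * (96 * 2 ^ K) := by ring

theorem sqrt_lambda2_bound (K : ℕ) :
    Real.sqrt (lambda2 (gr K)) ≤ 2 * Real.sqrt (K + 1 : ℝ) / 2 ^ K := by
  have h := Real.sqrt_le_sqrt (lambda2_bound K)
  refine h.trans (le_of_eq ?_)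
  have hp4 : (4 : ℝ) ^ K = (2 ^ K) ^ 2 := by
    rw [← pow_mul, mul_comm, pow_mul]; norm_num
  rw [Real.sqrt_div (by positivity), hp4, Real.sqrt_sq (by positivity),
    Real.sqrt_mul (by norm_num)]
  congr 2
  rw [show (4 : ℝ) = 2 ^ 2 by norm_num]
  exact Real.sqrt_sq (by norm_num)

/-- There is `c > 0` such that for every `M` there is a finite connected simple graph `G`
with at least two vertices whose simple random walk satisfies `λ₂ > 0`,
`φ_{1/2} > M √λ₂` and `φ_{1/2} ≥ c √(log (1/φ_{1/2})) √λ₂`.  In particular no absolute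
constant `C` gives `φ_{1/2}(G) ≤ C √(λ₂(G))` for all graphs. -/
theorem result : ∃ c : ℝ, 0 < c ∧ ∀ M : ℝ, ∃ (V : Type) (_ : Fintype V) (_ : DecidableEq V)
    (G : SimpleGraph V) (_ : DecidableRel G.Adj),
    G.Connected ∧ 2 ≤ Fintype.card V ∧ 0 < lambda2 G ∧
      M * Real.sqrt (lambda2 G) < phi (1 / 2) G ∧
      c * Real.sqrt (Real.log (1 / phi (1 / 2) G)) * Real.sqrt (lambda2 G) ≤ phi (1 / 2) G := by
  refine ⟨1 / 500, by norm_num, fun M => ?_⟩
  obtain ⟨K, hK⟩ := exists_nat_gt ((192 * |M|) ^ 2)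
  refine ⟨Gam K, inferInstance, inferInstance, gr K, inferInstance, gr_connected K,
    two_le_card K, cay_lambda2_pos (conn K) (conn_zero K) (conn_neg K) (conn_nonempty K)
      (two_le_card K) (gr_connected K), ?_, ?_⟩
  · have h1 := phi_bound K
    have h2 := sqrt_lambda2_bound K
    have hs : 192 * |M| < Real.sqrt (K + 1 : ℝ) := by
      apply Real.lt_sqrt_of_sq_lt
      linarith
    have hp : (0 : ℝ) < 2 ^ K := by positivity
    have hsq : 0 < Real.sqrt (K + 1 : ℝ) := Real.sqrt_pos.2 (by positivity)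
    have hsq2 : Real.sqrt (K + 1 : ℝ) * Real.sqrt (K + 1 : ℝ) = K + 1 :=
      Real.mul_self_sqrt (by positivity)
    calc M * Real.sqrt (lambda2 (gr K)) ≤ |M| * Real.sqrt (lambda2 (gr K)) :=
          mul_le_mul_of_nonneg_right (le_abs_self M) (Real.sqrt_nonneg _)
      _ ≤ |M| * (2 * Real.sqrt (K + 1 : ℝ) / 2 ^ K) :=
          mul_le_mul_of_nonneg_left h2 (abs_nonneg M)
      _ = (192 * |M|) * Real.sqrt (K + 1 : ℝ) / (96 * 2 ^ K) := by field_simp; ring
      _ < Real.sqrt (K + 1 : ℝ) * Real.sqrt (K + 1 : ℝ) / (96 * 2 ^ K) := by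
          apply div_lt_div_of_pos_right _ (by positivity)
          exact mul_lt_mul_of_pos_right hs hsq
      _ = (K + 1 : ℝ) / (96 * 2 ^ K) := by rw [hsq2]
      _ ≤ _ := h1
  · have h1 := phi_bound K
    have h2 := sqrt_lambda2_bound K
    have hp : (0 : ℝ) < 2 ^ K := by positivity
    have hKp : (0 : ℝ) < (K + 1 : ℝ) := by positivity
    have hphi0 : 0 < (K + 1 : ℝ) / (96 * 2 ^ K) := by positivity
    have hphi : 0 < phi (1 / 2) (gr K) := lt_of_lt_of_le hphi0 h1
    have hlog : Real.log (1 / phi (1 / 2) (gr K)) ≤ 5 * (K + 1 : ℝ) := by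
      have e1 : 1 / phi (1 / 2) (gr K) ≤ 96 * 2 ^ K := by
        calc 1 / phi (1 / 2) (gr K) ≤ 1 / ((K + 1 : ℝ) / (96 * 2 ^ K)) :=
              one_div_le_one_div_of_le hphi0 h1
          _ = 96 * 2 ^ K / (K + 1 : ℝ) := by rw [one_div_div]
          _ ≤ 96 * 2 ^ K := by
              apply div_le_self (by positivity)
              have : (0 : ℝ) ≤ K := Nat.cast_nonneg K
              linarith
      have e2 := Real.log_le_log (by positivity) e1
      refine e2.trans ?_
      rw [Real.log_mul (by norm_num) (by positivity), Real.log_pow]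
      have l2 : Real.log 2 ≤ 0.7 := by
        have := Real.log_two_lt_d9
        linarith
      have l96 : Real.log 96 ≤ 5 := by
        have h128 : Real.log 96 ≤ Real.log (2 ^ 7) := Real.log_le_log (by norm_num) (by norm_num)
        rw [Real.log_pow] at h128
        push_cast at h128
        linarith
      have hKn : (0 : ℝ) ≤ K := Nat.cast_nonneg K
      nlinarith
    have hsl : Real.sqrt (Real.log (1 / phi (1 / 2) (gr K))) ≤ 2.5 * Real.sqrt (K + 1 : ℝ) := by
      calc Real.sqrt (Real.log (1 / phi (1 / 2) (gr K))) ≤ Real.sqrt (5 * (K + 1 : ℝ)) :=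
            Real.sqrt_le_sqrt hlog
        _ ≤ Real.sqrt (2.5 ^ 2 * (K + 1 : ℝ)) := by
            apply Real.sqrt_le_sqrt
            nlinarith
        _ = 2.5 * Real.sqrt (K + 1 : ℝ) := by
            rw [Real.sqrt_mul (by norm_num), Real.sqrt_sq (by norm_num)]
    have hsq2 : Real.sqrt (K + 1 : ℝ) * Real.sqrt (K + 1 : ℝ) = K + 1 :=
      Real.mul_self_sqrt (by positivity)
    calc 1 / 500 * Real.sqrt (Real.log (1 / phi (1 / 2) (gr K))) * Real.sqrt (lambda2 (gr K)) ≤
        1 / 500 * (2.5 * Real.sqrt (K + 1 : ℝ)) * (2 * Real.sqrt (K + 1 : ℝ) / 2 ^ K) := by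
          apply mul_le_mul _ h2 (Real.sqrt_nonneg _) (by positivity)
          exact mul_le_mul_of_nonneg_left hsl (by norm_num)
      _ = (1 / 100) * (Real.sqrt (K + 1 : ℝ) * Real.sqrt (K + 1 : ℝ)) / 2 ^ K := by ring
      _ = (1 / 100) * (K + 1 : ℝ) / 2 ^ K := by rw [hsq2]
      _ ≤ (K + 1 : ℝ) / (96 * 2 ^ K) := by
          rw [div_le_div_iff₀ hp (by positivity)]
          nlinarith [mul_pos hKp hp]
      _ ≤ _ := h1

end Final

end Pool.Agent.Results.MP_6dcedf_co.SimpleWalkCounterexample
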